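import Mathlib
import Pool.Agent.helper93.PS.D14

/-!
# MP_da66b4_nt Q2: the upper bound for covering lattices in normal form
-/

namespace Pool.Agent.helper93.PS

/-- the rows of the root -/
def rootRows : List Nat :=
  [(mkRow 4096 4096 4096 4096 4096 4097 4095 4096 1),
   (mkRow 4096 4096 4095 4096 4097 4096 4096 4096 0),
   (mkRow 4095 4096 4096 4097 4096 4096 4096 4096 0),
   (mkRow 4095 4097 4096 4096 4096 4096 4096 4096 0),
   (mkRow 4097 4096 4097 4096 4096 4096 4096 4097 0),
   (mkRow 4096 4096 4096 4096 4096 4096 4097 4097 1),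
   (mkRow 4096 4096 4096 4096 4096 4095 4096 4096 1),
   (mkRow 4096 4096 4096 4096 4095 4096 4096 4096 0),
   (mkRow 4096 4096 4096 4095 4096 4096 4096 4096 0),
   (mkRow 4096 4096 4095 4096 4096 4096 4096 4096 1),
   (mkRow 4096 4095 4096 4096 4096 4096 4096 4096 0),
   (mkRow 4095 4096 4096 4096 4096 4096 4096 4096 1),
   (mkRow 4096 4096 4096 4096 4096 4096 4095 4096 0),
   (mkRow 4096 4096 4096 4096 4096 4097 4096 4097 0),
   (mkRow 4096 4096 4096 4096 4097 4096 4096 4097 0),
   (mkRow 4096 4096 4096 4097 4096 4096 4096 4097 0),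
   (mkRow 4096 4096 4097 4096 4096 4096 4096 4097 0),
   (mkRow 4096 4097 4096 4096 4096 4096 4096 4097 0),
   (mkRow 4097 4096 4096 4096 4096 4096 4096 4097 0)]

/-- the stack of a list of rows, the latest row first -/
def mkStk : List Nat → Nat
  | [] => 0
  | R :: l => push (mkStk l) R

theorem rootStk_eq : mkStk rootRows = stk0 := by decide +kernel

lemma good_mkStk {x : Pt} : ∀ l : List ℕ, (∀ R ∈ l, RowOK R x) → Good (mkStk l) x
  | [], _ => good_zero x
  | R :: l, h => good_push (good_mkStk l fun R' h' => h R' (List.mem_cons_of_mem _ h'))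
      (h R List.mem_cons_self)

lemma good_root {v : ℝ} {x : Pt} (hx : Glob v x) : Good stk0 x := by
  rw [← rootStk_eq]
  have hP0 := cst_big hx.hv
  have hmu : x.mu < 1 := by
    by_contra hc
    push Not at hc
    have h1 : (1 - x.mu) * x.al * x.rho * x.om ≤ 0 := by
      have := mul_pos (mul_pos hx.hal hx.hrho) hx.hom
      nlinarith
    linarith [hx.hP]
  have hom : x.om < x.mu := by
    obtain ⟨k, j, i, h1, h2, h3, h4⟩ := strict_cover hx.hal hx.hrho hx.hom hx.hcov 0 0
    have : (0 : ℝ) ≤ k * x.om := mul_nonneg (Nat.cast_nonneg k) hx.hom.le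
    linarith
  obtain ⟨_, hal, hs0, hs1, hrho, ht0, ht1, hu0, hu1, hom0, hsum, _, _⟩ := hx
  refine good_mkStk _ ?_
  intro R hR
  simp only [rootRows, List.mem_cons, List.not_mem_nil, or_false] at hR
  rcases hR with h | h | h | h | h | h | h | h | h | h | h | h | h | h | h | h | h | h | h
  all_goals
    rw [h]
    refine rowOK_mkRow (by norm_num) (by norm_num) (by norm_num) (by norm_num) (by norm_num)
      (by norm_num) (by norm_num) (by norm_num) (by norm_num) ⟨?_, ?_⟩
    · simp only [linG, dig]; push_cast; linarith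
    · first
      | (intro h'; exact absurd h' (lt_irrefl _))
      | (intro _; simp only [linG, dig]; push_cast; linarith)

end Pool.Agent.helper93.PS

namespace PS

/-- The upper bound: a covering lattice in normal form with `al + rho ≤ 1` has value at most the
constant. -/
theorem upper {v al s rho t u om mu : ℝ} (hv : IsV v) (hal : 0 < al) (hs0 : 0 ≤ s) (hs1 : s ≤ al)
    (hrho : 0 < rho) (ht0 : 0 ≤ t) (ht1 : t ≤ al) (hu0 : 0 ≤ u) (hu1 : u ≤ rho) (hom : 0 < om)
    (hsum : al + rho ≤ 1) (hcov : Covers al s rho t u om mu) :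
    (1 - mu) * al * rho * om ≤ cst v := by
  by_contra hcon
  push Not at hcon
  have hx : Pool.Agent.helper93.PS.Glob v ⟨al, s, rho, t, u, om, mu⟩ :=
    ⟨hv, hal, hs0, hs1, hrho, ht0, ht1, hu0, hu1, hom, hsum, hcov, hcon⟩
  exact Pool.Agent.helper93.PS.cl0 v _ hx (Pool.Agent.helper93.PS.good_root hx)

end PS
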