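import Mathlib.Data.Nat.Basic
import Mathlib.Data.List.Basic

/-!
# MP_da66b4_nt Q2: the certificate checker (computable part)

A row of linear data is packed into ten fields of 42 bits: the coefficients (biased by the field 9) of
`al, s, rho, t, u, om, mu`, the right-hand side, the strictness flag and the bias `4096`.
A stack of rows is packed with 420 bits per row, the latest row first. The tree is read from a stream of
bits, least significant bit first.
-/

namespace Pool.Agent.helper93.PS

/-- field `i` (42 bits) of a packed word -/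
def fld (T i : Nat) : Nat := Nat.mod (Nat.shiftRight T (Nat.mul 42 i)) 4398046511104

/-- row `i` (420 bits) of a stack -/
def rowAt (S i : Nat) : Nat := Nat.mod (Nat.shiftRight S (Nat.mul 420 i)) (Nat.pow 2 420)

/-- push the row `R` on the stack `S` -/
def push (S R : Nat) : Nat := Nat.add (Nat.mul S (Nat.pow 2 420)) R

/-- packing of ten fields -/
def mkRow (a b c d e f g h st : Nat) : Nat :=
  Nat.add a (Nat.mul 4398046511104 (Nat.add b (Nat.mul 4398046511104 (Nat.add c (Nat.mul 4398046511104
    (Nat.add d (Nat.mul 4398046511104 (Nat.add e (Nat.mul 4398046511104 (Nat.add f (Nat.mul 4398046511104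
    (Nat.add g (Nat.mul 4398046511104 (Nat.add h (Nat.mul 4398046511104
    (Nat.add st (Nat.mul 4398046511104 4096)))))))))))))))))

/-- `(k+1) om < mu` -/
def rK (k : Nat) : Nat := mkRow 4096 4096 4096 4096 4096 (Nat.add 4097 k) 4095 4096 1

/-- `0 < Y` where `Y = (k-ky) u - j rho`, `j = j' - 32` -/
def rY (ky k j : Nat) : Nat :=
  mkRow 4096 4096 (Nat.add 4064 j) 4096 (Nat.sub (Nat.add 4096 ky) k) 4096 4096 4096 1

/-- `(k+1) om + Y < mu` -/
def rKY (ky k j : Nat) : Nat :=
  mkRow 4096 4096 (Nat.sub 4128 j) 4096 (Nat.sub (Nat.add 4096 k) ky) (Nat.add 4097 k) 4095 4096 1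

/-- `0 < X` where `X = (jx-j) s + (k-kx) t - i al`, `jx = jx' - 8`, `i = i' - 32` -/
def rX (jx kx k j i : Nat) : Nat :=
  mkRow (Nat.add 4064 i) (Nat.sub (Nat.add 4072 j) jx) 4096 (Nat.sub (Nat.add 4096 kx) k)
    4096 4096 4096 4096 1

/-- `X ≤ al` -/
def rXa (jx kx k j i : Nat) : Nat :=
  mkRow (Nat.sub 4127 i) (Nat.sub (Nat.add 4120 jx) j) 4096 (Nat.sub (Nat.add 4096 k) kx)
    4096 4096 4096 4096 0

/-- `(k+1) om + Y + X ≤ mu` -/
def rC (ky jx kx k j i : Nat) : Nat :=
  mkRow (Nat.sub 4128 i) (Nat.sub (Nat.add 4120 jx) j) (Nat.sub 4128 j) (Nat.sub (Nat.add 4096 k) kx)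
    (Nat.sub (Nat.add 4096 k) ky) (Nat.add 4097 k) 4095 4096 0

/-- width of a multiplier -/
def wid (c : Nat) : Nat := cond (Nat.beq c 0) 4 (cond (Nat.beq c 1) 9 (cond (Nat.beq c 2) 16 24))

/-- linear combination of rows read from the stream -/
def certSum (w S : Nat) : Nat → Nat → Nat
  | 0, _ => 0
  | n + 1, D => Nat.add (Nat.mul (Nat.mod (Nat.shiftRight D 8) (Nat.pow 2 w)) (rowAt S (Nat.mod D 256)))
      (certSum w S n (Nat.shiftRight D (Nat.add 8 w)))

/-- the quartic test -/
def quart (K a b c d : Nat) : Bool :=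
  Nat.blt (Nat.mul 125 (Nat.mul (Nat.mul K K) (Nat.mul K K)))
    (Nat.mul 251 (Nat.mul (Nat.mul a b) (Nat.mul c d)))

/-- the combination `T` contradicts `al*rho*om*(1-mu) ≥ 251/32000` -/
def okT (T : Nat) : Bool :=
  cond (Nat.beq (fld T 1) (fld T 9)) (cond (Nat.beq (fld T 3) (fld T 9)) (cond (Nat.beq (fld T 4) (fld T 9))
  (cond (Nat.ble (fld T 9) (fld T 0)) (cond (Nat.ble (fld T 9) (fld T 2)) (cond (Nat.ble (fld T 9) (fld T 5))
  (cond (Nat.ble (fld T 6) (fld T 9))
    (cond (Nat.blt (fld T 7) (fld T 6)) true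
      (cond (quart (Nat.sub (fld T 7) (fld T 6)) (Nat.sub (fld T 9) (fld T 6)) (Nat.sub (fld T 0) (fld T 9))
          (Nat.sub (fld T 2) (fld T 9)) (Nat.sub (fld T 5) (fld T 9))) true
        (cond (Nat.beq (fld T 7) (fld T 6)) (Nat.blt 0 (fld T 8)) false)))
    false) false) false) false) false) false) false

/-- the combination `T` is a positive multiple `m` of `al + r rho + 6 om ≤ q mu` (or stronger) -/
def okE (r q T : Nat) : Bool :=
  cond (Nat.beq (fld T 1) (fld T 9)) (cond (Nat.beq (fld T 3) (fld T 9)) (cond (Nat.beq (fld T 4) (fld T 9))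
  (cond (Nat.blt (fld T 9) (fld T 0))
  (cond (Nat.beq (fld T 2) (Nat.add (fld T 9) (Nat.mul r (Nat.sub (fld T 0) (fld T 9)))))
  (cond (Nat.beq (fld T 5) (Nat.add (fld T 9) (Nat.mul 6 (Nat.sub (fld T 0) (fld T 9)))))
  (cond (Nat.beq (Nat.add (fld T 6) (Nat.mul q (Nat.sub (fld T 0) (fld T 9)))) (fld T 9))
    (Nat.ble (fld T 7) (fld T 9)) false) false) false) false) false) false) false

/-- number of rows of a certificate -/
def cn (D : Nat) : Nat := Nat.mod D 16

/-- multiplier width of a certificate -/
def cw (D : Nat) : Nat := wid (Nat.mod (Nat.shiftRight D 4) 4)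

/-- the combination of a certificate -/
def cT (S D : Nat) : Nat := certSum (cw D) S (cn D) (Nat.shiftRight D 6)

/-- the rest of the stream after a certificate -/
def cR (D : Nat) : Nat := Nat.shiftRight D (Nat.add 6 (Nat.mul (cn D) (Nat.add 8 (cw D))))

/-- read a certificate of infeasibility of the stack `S`, return the rest of the stream -/
def cert (S D : Nat) : Option Nat := cond (okT (cT S D)) (some (cR D)) none

/-- sequential composition -/
def andThen (o : Option Nat) (f : Nat → Option Nat) : Option Nat :=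
  match o with
  | none => none
  | some D => f D

/-- push four rows -/
def push4 (S ky jx kx k j i : Nat) : Nat :=
  push (push (push (push S (rY ky k j)) (rX jx kx k j i)) (rXa jx kx k j i)) (rC ky jx kx k j i)

/-- all `i` with `i' < m` are excluded -/
def loopI (ih : Nat → Nat → Option Nat) (S SC ky jx kx k j : Nat) : Nat → Nat → Option Nat
  | 0, _ => none
  | m + 1, D => cond (Nat.beq (Nat.mod D 2) 0)
      (cert (push (push SC (rXa jx kx k j m)) (rC ky jx kx k j m)) (Nat.shiftRight D 1))
      (andThen (ih (push4 S ky jx kx k j m) (Nat.shiftRight D 1))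
        (fun D' => loopI ih S SC ky jx kx k j m D'))

/-- the pair `(k, j)` is excluded, `SC` is the stack with the rows for `Y` -/
def phC (ih : Nat → Nat → Option Nat) (S SC ky jx kx k j D : Nat) : Option Nat :=
  cond (Nat.beq (Nat.mod D 2) 0) (cert SC (Nat.shiftRight D 1))
    (andThen (cert (push SC (rX jx kx k j (Nat.mod (Nat.shiftRight D 1) 64))) (Nat.shiftRight D 7))
      (fun D' => loopI ih S SC ky jx kx k j (Nat.mod (Nat.shiftRight D 1) 64) D'))

/-- all `j` with `j' < m` are excluded -/
def loopJ (ih : Nat → Nat → Option Nat) (S SB ky jx kx k : Nat) : Nat → Nat → Option Nat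
  | 0, _ => none
  | m + 1, D => cond (Nat.beq (Nat.mod D 2) 0) (cert (push SB (rKY ky k m)) (Nat.shiftRight D 1))
      (andThen (phC ih S (push (push SB (rY ky k m)) (rKY ky k m)) ky jx kx k m (Nat.shiftRight D 1))
        (fun D' => loopJ ih S SB ky jx kx k m D'))

/-- the value `k` is excluded, `SB` is the stack with the row for `k` -/
def phB (ih : Nat → Nat → Option Nat) (S SB ky jx kx k D : Nat) : Option Nat :=
  andThen (cert (push SB (rY ky k (Nat.mod D 64))) (Nat.shiftRight D 6))
    (fun D' => loopJ ih S SB ky jx kx k (Nat.mod D 64) D')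

/-- all values `≥ k` are excluded -/
def loopK (ih : Nat → Nat → Option Nat) (S ky jx kx : Nat) : Nat → Nat → Nat → Option Nat
  | 0, _, _ => none
  | f + 1, k, D => cond (Nat.beq (Nat.mod D 2) 0) (cert (push S (rK k)) (Nat.shiftRight D 1))
      (andThen (phB ih S (push S (rK k)) ky jx kx k (Nat.shiftRight D 1))
        (fun D' => loopK ih S ky jx kx f (Nat.add k 1) D'))

/-- a test point: 3 bits `ky`, 5 bits `jx'`, 3 bits `kx` -/
def test (ih : Nat → Nat → Option Nat) (S D : Nat) : Option Nat :=
  loopK ih S (Nat.mod D 8) (Nat.mod (Nat.shiftRight D 3) 32) (Nat.mod (Nat.shiftRight D 8) 8) 40 0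
    (Nat.shiftRight D 11)

/-- exact leaf: two certificates -/
def exact2 (S D : Nat) : Option Nat :=
  cond (okE 5 4 (cT S D)) (cond (okE 2 3 (cT S (cR D))) (some (cR (cR D))) none) none

/-- reference to a stack which is closed by another theorem -/
def getR (l : List Nat) : Nat → Nat
  | 0 => match l with
    | [] => 0
    | a :: _ => a
  | n + 1 => match l with
    | [] => 0
    | _ :: t => getR t n

/-- the main checker -/
def chk (refs : List Nat) : Nat → Nat → Nat → Option Nat
  | 0, _, _ => none
  | f + 1, S, D =>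
    cond (Nat.beq (Nat.mod D 4) 0) (cert S (Nat.shiftRight D 2))
      (cond (Nat.beq (Nat.mod D 4) 1) (test (fun S' D' => chk refs f S' D') S (Nat.shiftRight D 2))
        (cond (Nat.beq (Nat.mod D 4) 2) (exact2 S (Nat.shiftRight D 2))
          (cond (Nat.beq S (getR refs (Nat.mod (Nat.shiftRight D 2) 64)))
            (cond (Nat.blt (Nat.mod (Nat.shiftRight D 2) 64) refs.length) (some (Nat.shiftRight D 8)) none)
            none)))

/-- the check of a whole stream -/
def chk1 (refs : List Nat) (S D : Nat) : Bool :=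
  match chk refs 30 S D with
  | none => false
  | some _ => true

end Pool.Agent.helper93.PS
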