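import Mathlib
import Pool.Agent.helper93.PS.Check

/-!
# MP_da66b4_nt Q2: packed rows, semantics
-/

namespace Pool.Agent.helper93.PS

open Finset

lemma fld_eq (T i : ℕ) : fld T i = T / (2 ^ 42) ^ i % 2 ^ 42 := by
  unfold fld
  show (T >>> (42 * i)) % 4398046511104 = _
  rw [Nat.shiftRight_eq_div_pow, pow_mul]
  norm_num

lemma rowAt_eq (S i : ℕ) : rowAt S i = S / (2 ^ 420) ^ i % 2 ^ 420 := by
  unfold rowAt
  show (S >>> (420 * i)) % 2 ^ 420 = _
  rw [Nat.shiftRight_eq_div_pow, pow_mul]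

lemma push_eq (S R : ℕ) : push S R = S * 2 ^ 420 + R := rfl

lemma digit_sum (B : ℕ) (hB : 0 < B) (g : ℕ → ℕ) (hg : ∀ i, g i < B) (n : ℕ) :
    (∑ j ∈ range n, g j * B ^ j) < B ^ n ∧
    ∀ i, i < n → (∑ j ∈ range n, g j * B ^ j) / B ^ i % B = g i := by
  induction n with
  | zero => simp
  | succ n ih =>
    obtain ⟨h1, h2⟩ := ih
    rw [sum_range_succ]
    constructor
    · have h3 : g n * B ^ n ≤ (B - 1) * B ^ n := Nat.mul_le_mul_right _ (by have := hg n; omega)
      have h4 : (B - 1) * B ^ n + B ^ n = B ^ (n + 1) := by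
        have : B - 1 + 1 = B := by omega
        calc (B - 1) * B ^ n + B ^ n = (B - 1 + 1) * B ^ n := by ring
          _ = B ^ (n + 1) := by rw [this]; ring
      omega
    · intro i hi
      rcases Nat.lt_or_ge i n with h | h
      · have h5 : g n * B ^ n = B ^ i * (B * (g n * B ^ (n - i - 1))) := by
          have : B ^ n = B ^ i * (B * B ^ (n - i - 1)) := by
            rw [← pow_succ', ← pow_add]; congr 1; omega
          rw [this]; ring
        rw [h5, Nat.add_mul_div_left _ _ (pow_pos hB i), Nat.add_mul_mod_self_left]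
        exact h2 i h
      · have h6 : i = n := by omega
        subst h6
        rw [Nat.add_mul_div_right _ _ (pow_pos hB i), Nat.div_eq_of_lt h1, zero_add]
        exact Nat.mod_eq_of_lt (hg i)

lemma digit_repr (B R : ℕ) (n : ℕ) : R % B ^ n = ∑ j ∈ range n, (R / B ^ j % B) * B ^ j := by
  induction n with
  | zero => simp [Nat.mod_one]
  | succ n ih => rw [sum_range_succ, ← ih, Nat.mod_pow_succ]; ring

lemma row_repr {R : ℕ} (h : R < 2 ^ 420) : R = ∑ j ∈ range 10, fld R j * (2 ^ 42) ^ j := by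
  have h1 := digit_repr (2 ^ 42) R 10
  rw [Nat.mod_eq_of_lt (by rw [← pow_mul]; exact h)] at h1
  conv_lhs => rw [h1]
  exact sum_congr rfl fun j _ => by rw [fld_eq]

lemma fld_sum (g : ℕ → ℕ) (hg : ∀ i, g i < 2 ^ 42) (i : ℕ) (hi : i < 10) :
    fld (∑ j ∈ range 10, g j * (2 ^ 42) ^ j) i = g i := by
  rw [fld_eq]
  exact (digit_sum (2 ^ 42) (by norm_num) g hg 10).2 i hi

lemma push_aux0 (B S R : ℕ) (h : R < B) : (S * B + R) / B ^ 0 % B = R := by
  rw [pow_zero, Nat.div_one, Nat.add_comm, Nat.add_mul_mod_self_right, Nat.mod_eq_of_lt h]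

lemma push_aux1 (B S R i : ℕ) (h : R < B) : (S * B + R) / B ^ (i + 1) % B = S / B ^ i % B := by
  have hB : 0 < B := by omega
  rw [pow_succ', ← Nat.div_div_eq_div_mul]
  congr 2
  rw [mul_comm S, Nat.mul_add_div hB, Nat.div_eq_of_lt h, add_zero]

lemma rowAt_push_zero (S R : ℕ) (h : R < 2 ^ 420) : rowAt (push S R) 0 = R := by
  rw [rowAt_eq, push_eq]; exact push_aux0 _ S R h

lemma rowAt_push_succ (S R i : ℕ) (h : R < 2 ^ 420) : rowAt (push S R) (i + 1) = rowAt S i := by
  rw [rowAt_eq, rowAt_eq, push_eq]; exact push_aux1 _ S R i h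

/-- a point of the parameter space -/
structure Pt where
  al : ℝ
  s : ℝ
  rho : ℝ
  t : ℝ
  u : ℝ
  om : ℝ
  mu : ℝ

/-- the linear form with digits `g` -/
def linG (g : ℕ → ℕ) (x : Pt) : ℝ :=
  ((g 0 : ℝ) - g 9) * x.al + ((g 1 : ℝ) - g 9) * x.s + ((g 2 : ℝ) - g 9) * x.rho +
  ((g 3 : ℝ) - g 9) * x.t + ((g 4 : ℝ) - g 9) * x.u + ((g 5 : ℝ) - g 9) * x.om +
  ((g 6 : ℝ) - g 9) * x.mu

/-- the row with digits `g` holds at `x` -/
def HoldsG (g : ℕ → ℕ) (x : Pt) : Prop :=
  linG g x ≤ (g 7 : ℝ) - g 9 ∧ (0 < g 8 → linG g x < (g 7 : ℝ) - g 9)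

/-- the packed row `R` holds at `x` -/
def RowOK (R : ℕ) (x : Pt) : Prop :=
  R < 2 ^ 420 ∧ (∀ i, i < 10 → fld R i < 8192) ∧ HoldsG (fld R) x

/-- all rows of the stack hold at `x` -/
def Good (S : ℕ) (x : Pt) : Prop := ∀ i, RowOK (rowAt S i) x

lemma good_push {S R : ℕ} {x : Pt} (hS : Good S x) (hR : RowOK R x) : Good (push S R) x := by
  intro i
  cases i with
  | zero => rw [rowAt_push_zero _ _ hR.1]; exact hR
  | succ i => rw [rowAt_push_succ _ _ _ hR.1]; exact hS i

lemma rowOK_zero (x : Pt) : RowOK 0 x := by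
  refine ⟨by norm_num, fun i _ => ?_, ?_, ?_⟩
  · rw [fld_eq]; simp
  · simp [linG, fld_eq]
  · intro h; rw [fld_eq] at h; simp at h

lemma good_zero (x : Pt) : Good 0 x := by
  intro i
  have : rowAt 0 i = 0 := by rw [rowAt_eq]; simp
  rw [this]; exact rowOK_zero x

/-- digits of `mkRow` -/
def dig (a b c d e f g h st : ℕ) : ℕ → ℕ
  | 0 => a | 1 => b | 2 => c | 3 => d | 4 => e | 5 => f | 6 => g | 7 => h | 8 => st | 9 => 4096
  | _ => 0

lemma mkRow_eq (a b c d e f g h st : ℕ) :
    mkRow a b c d e f g h st = ∑ j ∈ range 10, dig a b c d e f g h st j * (2 ^ 42) ^ j := by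
  simp only [sum_range_succ, range_zero, sum_empty, dig]
  unfold mkRow
  simp only [Nat.add_eq, Nat.mul_eq]
  ring

lemma rowOK_mkRow {a b c d e f g h st : ℕ} {x : Pt} (ha : a < 8192) (hb : b < 8192) (hc : c < 8192)
    (hd : d < 8192) (he : e < 8192) (hf : f < 8192) (hg : g < 8192) (hh : h < 8192) (hst : st < 8192)
    (hx : HoldsG (dig a b c d e f g h st) x) : RowOK (mkRow a b c d e f g h st) x := by
  have hdig : ∀ i, dig a b c d e f g h st i < 8192 := by
    intro i
    match i with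
    | 0 => exact ha
    | 1 => exact hb
    | 2 => exact hc
    | 3 => exact hd
    | 4 => exact he
    | 5 => exact hf
    | 6 => exact hg
    | 7 => exact hh
    | 8 => exact hst
    | 9 => exact (by norm_num : (4096 : ℕ) < 8192)
    | (n + 10) => exact (by norm_num : (0 : ℕ) < 8192)
  have h42 : ∀ i, dig a b c d e f g h st i < 2 ^ 42 := fun i => lt_trans (hdig i) (by norm_num)
  have hf' : ∀ i, i < 10 → fld (mkRow a b c d e f g h st) i = dig a b c d e f g h st i := by
    intro i hi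
    rw [mkRow_eq]; exact fld_sum _ h42 i hi
  refine ⟨?_, fun i hi => by rw [hf' i hi]; exact hdig i, ?_⟩
  · rw [mkRow_eq]
    have := (digit_sum (2 ^ 42) (by norm_num) _ h42 10).1
    calc _ < (2 ^ 42) ^ 10 := this
      _ = 2 ^ 420 := by rw [← pow_mul]
  · unfold HoldsG linG at *
    simp only [hf' 0 (by norm_num), hf' 1 (by norm_num), hf' 2 (by norm_num), hf' 3 (by norm_num),
      hf' 4 (by norm_num), hf' 5 (by norm_num), hf' 6 (by norm_num), hf' 7 (by norm_num),
      hf' 8 (by norm_num), hf' 9 (by norm_num)]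
    exact hx

/-- the combination of rows -/
lemma certSum_spec {x : Pt} {S : ℕ} (hS : Good S x) (w : ℕ) (hw : w ≤ 24) : ∀ n D : ℕ,
    ∃ g : ℕ → ℕ, certSum w S n D = ∑ j ∈ range 10, g j * (2 ^ 42) ^ j ∧
      (∀ j, j < 10 → g j ≤ n * (2 ^ 24 * 8192)) ∧ HoldsG g x := by
  intro n
  induction n with
  | zero =>
    intro D
    refine ⟨fun _ => 0, by simp [certSum], by simp, ?_, ?_⟩
    · simp [linG]
    · intro h; exact absurd h (lt_irrefl _)
  | succ n ih =>
    intro D
    obtain ⟨g, hg1, hg2, hg3, hg4⟩ := ih (Nat.shiftRight D (Nat.add 8 w))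
    set lam := Nat.mod (Nat.shiftRight D 8) (Nat.pow 2 w) with hlam
    set R := rowAt S (Nat.mod D 256) with hR
    have hRok : RowOK R x := hS _
    have hlam2 : lam < 2 ^ 24 := by
      have h1 : lam < 2 ^ w := Nat.mod_lt _ (pow_pos (by norm_num : 0 < 2) w)
      exact lt_of_lt_of_le h1 (Nat.pow_le_pow_right (by norm_num) hw)
    have hlin : linG (fun j => lam * fld R j + g j) x = lam * linG (fld R) x + linG g x := by
      unfold linG; push_cast; ring
    refine ⟨fun j => lam * fld R j + g j, ?_, ?_, ?_, ?_⟩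
    · have e1 : certSum w S (n + 1) D = lam * R + certSum w S n (Nat.shiftRight D (Nat.add 8 w)) := rfl
      rw [e1, hg1]
      have e2 := row_repr hRok.1
      have e3 : lam * R = ∑ j ∈ range 10, lam * (fld R j * (2 ^ 42) ^ j) := by
        rw [← mul_sum, ← e2]
      rw [e3, ← sum_add_distrib]
      exact sum_congr rfl fun j _ => by ring
    · intro j hj
      have h1 := hRok.2.1 j hj
      have h2 := hg2 j hj
      have h3 : lam * fld R j ≤ 2 ^ 24 * 8192 := Nat.mul_le_mul hlam2.le h1.le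
      show lam * fld R j + g j ≤ _
      calc lam * fld R j + g j ≤ 2 ^ 24 * 8192 + n * (2 ^ 24 * 8192) := Nat.add_le_add h3 h2
        _ = (n + 1) * (2 ^ 24 * 8192) := by ring
    · have h1 := hRok.2.2.1
      have h0 : (0 : ℝ) ≤ (lam : ℝ) := Nat.cast_nonneg _
      have h2 := mul_le_mul_of_nonneg_left h1 h0
      rw [hlin]
      push_cast
      linarith [h2, hg3]
    · intro hpos
      have h0 : (0 : ℝ) ≤ (lam : ℝ) := Nat.cast_nonneg _
      have h1 := hRok.2.2.1
      have h2 := mul_le_mul_of_nonneg_left h1 h0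
      rcases Nat.eq_zero_or_pos (g 8) with h8 | h8
      · have hpos' : 0 < lam * fld R 8 := by
          have : 0 < lam * fld R 8 + g 8 := hpos
          omega
        have hl : 0 < lam := by
          rcases Nat.eq_zero_or_pos lam with h' | h'
          · rw [h'] at hpos'; simp at hpos'
          · exact h'
        have hf8 : 0 < fld R 8 := by
          rcases Nat.eq_zero_or_pos (fld R 8) with h' | h'
          · rw [h'] at hpos'; simp at hpos'
          · exact h'
        have h3 := hRok.2.2.2 hf8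
        have h4 : (0 : ℝ) < (lam : ℝ) := by exact_mod_cast hl
        have h5 := mul_lt_mul_of_pos_left h3 h4
        rw [hlin]
        push_cast
        linarith [h5, hg3]
      · have h3 := hg4 h8
        rw [hlin]
        push_cast
        linarith [h2, h3]

end Pool.Agent.helper93.PS
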