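import Mathlib
import Pool.Agent.helper93.PS.Pack
import Pool.Agent.helper46.PS.Defs

/-!
# MP_da66b4_nt Q2: leaves of the certificate
-/

namespace Pool.Agent.helper93.PS

/-- The global assumptions on a point: a covering lattice in normal form whose value exceeds `cst v`. -/
structure Glob (v : ℝ) (x : Pt) : Prop where
  hv : _root_.PS.IsV v
  hal : 0 < x.al
  hs0 : 0 ≤ x.s
  hs1 : x.s ≤ x.al
  hrho : 0 < x.rho
  ht0 : 0 ≤ x.t
  ht1 : x.t ≤ x.al
  hu0 : 0 ≤ x.u
  hu1 : x.u ≤ x.rho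
  hom : 0 < x.om
  hsum : x.al + x.rho ≤ 1
  hcov : _root_.PS.Covers x.al x.s x.rho x.t x.u x.om x.mu
  hP : _root_.PS.cst v < (1 - x.mu) * x.al * x.rho * x.om

lemma amgm4 {p q r t : ℝ} (hp : 0 ≤ p) (hq : 0 ≤ q) (hr : 0 ≤ r) (ht : 0 ≤ t) :
    256 * (p * q * r * t) ≤ (p + q + r + t) ^ 4 := by
  have h1 : 4 * (p * q) ≤ (p + q) ^ 2 := by nlinarith [sq_nonneg (p - q)]
  have h2 : 4 * (r * t) ≤ (r + t) ^ 2 := by nlinarith [sq_nonneg (r - t)]
  have h3 : 4 * ((p + q) * (r + t)) ≤ (p + q + r + t) ^ 2 := by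
    nlinarith [sq_nonneg (p + q - (r + t))]
  have h4 : 0 ≤ p * q := mul_nonneg hp hq
  have h5 : 0 ≤ r * t := mul_nonneg hr ht
  have h6 : 16 * ((p * q) * (r * t)) ≤ (p + q) ^ 2 * (r + t) ^ 2 := by
    calc 16 * ((p * q) * (r * t)) = (4 * (p * q)) * (4 * (r * t)) := by ring
      _ ≤ (p + q) ^ 2 * (r + t) ^ 2 := mul_le_mul h1 h2 (by positivity) (by positivity)
  have h7 : 0 ≤ 4 * ((p + q) * (r + t)) := by positivity
  have h8 : (4 * ((p + q) * (r + t))) ^ 2 ≤ ((p + q + r + t) ^ 2) ^ 2 :=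
    pow_le_pow_left₀ h7 h3 2
  nlinarith [h6, h8]

lemma v_bounds {v : ℝ} (h : _root_.PS.IsV v) : 0.951 < v ∧ v < 0.952 := by
  obtain ⟨h1, h2, h3⟩ := h
  constructor
  · by_contra hc
    push Not at hc
    nlinarith [mul_nonneg (sub_nonneg.2 h1.le) (sub_nonneg.2 hc), sq_nonneg (v - 0.95)]
  · by_contra hc
    push Not at hc
    nlinarith [mul_nonneg (sub_nonneg.2 h2.le) (sub_nonneg.2 hc), sq_nonneg (v - 0.96)]

lemma cst_big {v : ℝ} (h : _root_.PS.IsV v) : 251 / 32000 < _root_.PS.cst v := by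
  obtain ⟨h1, h2⟩ := v_bounds h
  unfold _root_.PS.cst
  rw [lt_div_iff₀ (by norm_num)]
  have e : (5 - 3 * v) * (7 - v) * (1 + v) * v = 3 * v ^ 4 - 23 * v ^ 3 + 9 * v ^ 2 + 35 * v := by ring
  rw [e]
  have h3 : 0 ≤ (v - 0.951) * (0.952 - v) := mul_nonneg (by linarith) (by linarith)
  nlinarith [h3, mul_nonneg h3 (by linarith : (0 : ℝ) ≤ v), mul_nonneg h3 (sq_nonneg v)]

/-- the optimum inequality -/
lemma exact_bound {v al rho om mu : ℝ} (h : _root_.PS.IsV v) (hal : 0 < al) (hrho : 0 < rho)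
    (hom : 0 < om) (hmu : mu < 1) (h3 : al + rho ≤ 1) (h1 : al + 5 * rho + 6 * om ≤ 4 * mu)
    (h2 : al + 2 * rho + 6 * om ≤ 3 * mu) :
    (1 - mu) * al * rho * om ≤ _root_.PS.cst v := by
  obtain ⟨hv1, hv2⟩ := v_bounds h
  have hc := h.2.2
  set A := 8 / (7 - v) with hA
  set R := 8 / (1 + v) with hR
  set O := 6 / v with hO
  set M := 8 / (5 - 3 * v) with hM
  have p7 : 0 < 7 - v := by linarith
  have p1 : 0 < 1 + v := by linarith
  have p0 : 0 < v := by linarith
  have p5 : 0 < 5 - 3 * v := by linarith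
  have hA0 : 0 < A := by positivity
  have hR0 : 0 < R := by positivity
  have hO0 : 0 < O := by positivity
  have hM0 : 0 < M := by positivity
  -- multipliers
  set l1 := M - O / 2 with hl1
  set l2 := 2 * O / 3 - M with hl2
  set l3 := A - O / 6 with hl3
  have q1 : 0 ≤ l1 := by
    rw [hl1, hM, hO, sub_nonneg, div_div, div_le_div_iff₀ (by positivity) p5]
    nlinarith
  have q2 : 0 ≤ l2 := by
    rw [hl2, hM, hO, sub_nonneg]
    rw [show (2 : ℝ) * (6 / v) / 3 = 4 / v by field_simp; norm_num]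
    rw [div_le_div_iff₀ p5 p0]
    nlinarith
  have q3 : 0 ≤ l3 := by
    rw [hl3, hA, hO, sub_nonneg]
    rw [show (6 : ℝ) / v / 6 = 1 / v by field_simp]
    rw [div_le_div_iff₀ p0 p7]
    nlinarith
  -- identities from the cubic
  have hA' : A * (7 - v) = 8 := by rw [hA]; field_simp
  have hR' : R * (1 + v) = 8 := by rw [hR]; field_simp
  have hO' : O * v = 6 := by rw [hO]; field_simp
  have hM' : M * (5 - 3 * v) = 8 := by rw [hM]; exact div_mul_cancel₀ _ p5.ne'
  have i1 : A - O / 6 + M = 4 := by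
    have hne : v * (7 - v) * (5 - 3 * v) ≠ 0 := by positivity
    have hz : v * (7 - v) * (5 - 3 * v) * (A - O / 6 + M) = v * (7 - v) * (5 - 3 * v) * 4 := by
      linear_combination v * (5 - 3 * v) * hA' - (7 - v) * (5 - 3 * v) / 6 * hO' +
        v * (7 - v) * hM' - hc
    exact mul_left_cancel₀ hne hz
  have i2 : 5 * l1 + 2 * l2 + l3 = R := by
    have hne : v * (7 - v) * (5 - 3 * v) * (1 + v) ≠ 0 := by positivity
    have hz : v * (7 - v) * (5 - 3 * v) * (1 + v) * (5 * l1 + 2 * l2 + l3) =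
        v * (7 - v) * (5 - 3 * v) * (1 + v) * R := by
      rw [hl1, hl2, hl3]
      linear_combination 3 * v * (7 - v) * (1 + v) * hM' + v * (5 - 3 * v) * (1 + v) * hA'
        - 4 / 3 * (7 - v) * (5 - 3 * v) * (1 + v) * hO' - v * (7 - v) * (5 - 3 * v) * hR' - 8 * hc
    exact mul_left_cancel₀ hne hz
  have hsum : A * al + R * rho + O * om + M * (1 - mu) ≤ 4 := by
    have k1 := mul_le_mul_of_nonneg_left h1 q1
    have k2 := mul_le_mul_of_nonneg_left h2 q2
    have k3 := mul_le_mul_of_nonneg_left h3 q3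
    have c1 : l1 + l2 + l3 = A := by rw [hl1, hl2, hl3]; ring
    have c2 : 6 * (l1 + l2) = O := by rw [hl1, hl2]; ring
    have c3 : 4 * l1 + 3 * l2 = M := by rw [hl1, hl2]; ring
    have : A * al + R * rho + O * om - M * mu =
        l1 * (al + 5 * rho + 6 * om) + l2 * (al + 2 * rho + 6 * om) + l3 * (al + rho)
          - (l1 * (4 * mu) + l2 * (3 * mu)) := by
      rw [← c3, ← c2, ← i2, ← c1]; ring
    have i1' : l3 + M = 4 := by rw [hl3]; linarith [i1]
    linarith
  have hg := amgm4 (mul_pos hA0 hal).le (mul_pos hR0 hrho).le (mul_pos hO0 hom).le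
    (mul_pos hM0 (by linarith : (0 : ℝ) < 1 - mu)).le
  have hnn : 0 ≤ A * al + R * rho + O * om + M * (1 - mu) := by
    have := mul_pos hM0 (by linarith : (0 : ℝ) < 1 - mu)
    positivity
  have h44 : (A * al + R * rho + O * om + M * (1 - mu)) ^ 4 ≤ 4 ^ 4 := pow_le_pow_left₀ hnn hsum 4
  have h256 : A * R * O * M * ((1 - mu) * al * rho * om) ≤ 1 := by
    have e : A * al * (R * rho) * (O * om) * (M * (1 - mu)) =
        A * R * O * M * ((1 - mu) * al * rho * om) := by ring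
    rw [e] at hg
    have := le_trans hg h44
    linarith
  have hprod : A * R * O * M * _root_.PS.cst v = 1 := by
    unfold _root_.PS.cst
    have e : A * R * O * M * ((5 - 3 * v) * (7 - v) * (1 + v) * v / 3072) =
        (A * (7 - v)) * (R * (1 + v)) * (O * v) * (M * (5 - 3 * v)) / 3072 := by ring
    rw [e, hA', hR', hO', hM']
    norm_num
  have hpos : 0 < A * R * O * M := by positivity
  by_contra hcon
  push Not at hcon
  have := mul_lt_mul_of_pos_left hcon hpos
  linarith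

/-- numerical form of the leaf test -/
lemma leaf_contra {v : ℝ} {x : Pt} (hx : Glob v x) {g : ℕ → ℕ} (hg : HoldsG g x)
    (c1 : g 1 = g 9) (c3 : g 3 = g 9) (c4 : g 4 = g 9) (c0 : g 9 ≤ g 0) (c2 : g 9 ≤ g 2)
    (c5 : g 9 ≤ g 5) (c6 : g 6 ≤ g 9)
    (h : g 7 < g 6 ∨ (125 * ((g 7 - g 6) ^ 4) < 251 * ((g 9 - g 6) * (g 0 - g 9) * ((g 2 - g 9) * (g 5 - g 9))))
      ∨ (g 7 = g 6 ∧ 0 < g 8)) : False := by
  have hP0 := cst_big hx.hv
  have hP : 251 / 32000 < (1 - x.mu) * x.al * x.rho * x.om := lt_trans hP0 hx.hP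
  have hmu : 0 < 1 - x.mu := by
    by_contra hc
    push Not at hc
    have h1 : (1 - x.mu) * x.al * x.rho * x.om ≤ 0 := by
      have := mul_pos (mul_pos hx.hal hx.hrho) hx.hom
      nlinarith
    linarith
  set b : ℝ := (g 0 : ℝ) - g 9 with hb
  set c : ℝ := (g 2 : ℝ) - g 9 with hc
  set d : ℝ := (g 5 : ℝ) - g 9 with hd
  set a : ℝ := (g 9 : ℝ) - g 6 with ha
  have b0 : 0 ≤ b := by rw [hb, sub_nonneg]; exact_mod_cast c0
  have c0' : 0 ≤ c := by rw [hc, sub_nonneg]; exact_mod_cast c2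
  have d0 : 0 ≤ d := by rw [hd, sub_nonneg]; exact_mod_cast c5
  have a0 : 0 ≤ a := by rw [ha, sub_nonneg]; exact_mod_cast c6
  have hl : linG g x = b * x.al + c * x.rho + d * x.om - a * x.mu := by
    unfold linG
    rw [c1, c3, c4]; simp only [hb, hc, hd, ha]; ring
  have h1 : a * (1 - x.mu) + b * x.al + c * x.rho + d * x.om ≤ (g 7 : ℝ) - g 6 := by
    have := hg.1
    rw [hl] at this
    simp only [ha] at *
    linarith
  have n1 : 0 ≤ a * (1 - x.mu) := mul_nonneg a0 hmu.le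
  have n2 : 0 ≤ b * x.al := mul_nonneg b0 hx.hal.le
  have n3 : 0 ≤ c * x.rho := mul_nonneg c0' hx.hrho.le
  have n4 : 0 ≤ d * x.om := mul_nonneg d0 hx.hom.le
  rcases h with h | h | ⟨h, h8⟩
  · have : (g 7 : ℝ) < g 6 := by exact_mod_cast h
    linarith
  · rcases Nat.lt_or_ge (g 7) (g 6) with h76 | h76
    · have : (g 7 : ℝ) < g 6 := by exact_mod_cast h76
      linarith
    have hg4 := amgm4 n1 n2 n3 n4
    have h2 : (a * (1 - x.mu) + b * x.al + c * x.rho + d * x.om) ^ 4 ≤ ((g 7 : ℝ) - g 6) ^ 4 :=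
      pow_le_pow_left₀ (by positivity) h1 4
    have h3 : (125 : ℝ) * ((g 7 : ℝ) - g 6) ^ 4 < 251 * (a * b * (c * d)) := by
      have : ((125 * ((g 7 - g 6) ^ 4) : ℕ) : ℝ) <
          ((251 * ((g 9 - g 6) * (g 0 - g 9) * ((g 2 - g 9) * (g 5 - g 9))) : ℕ) : ℝ) := by
        exact_mod_cast h
      push_cast [Nat.cast_sub h76, Nat.cast_sub c6, Nat.cast_sub c0, Nat.cast_sub c2,
        Nat.cast_sub c5] at this
      simp only [ha, hb, hc, hd]
      linarith
    have h4 : (0 : ℝ) ≤ a * b * (c * d) := by positivity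
    have h5 : a * b * (c * d) * (251 / 32000) ≤ a * b * (c * d) * ((1 - x.mu) * x.al * x.rho * x.om) :=
      mul_le_mul_of_nonneg_left hP.le h4
    have e : a * (1 - x.mu) * (b * x.al) * (c * x.rho) * (d * x.om) =
        a * b * (c * d) * ((1 - x.mu) * x.al * x.rho * x.om) := by ring
    rw [e] at hg4
    have h6 := le_trans hg4 h2
    linarith
  · have h2 := hg.2 h8
    rw [hl] at h2
    have h7 : (g 7 : ℝ) = g 6 := by exact_mod_cast h
    simp only [ha] at *
    linarith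

lemma fields_of_sum {S : ℕ} {x : Pt} (hS : Good S x) (D : ℕ) :
    ∃ g : ℕ → ℕ, (∀ i, i < 10 → fld (cT S D) i = g i) ∧ HoldsG g x := by
  have hw : cw D ≤ 24 := by
    unfold cw wid
    cases Nat.beq (Nat.mod (Nat.shiftRight D 4) 4) 0 <;> simp
    cases Nat.beq (Nat.mod (Nat.shiftRight D 4) 4) 1 <;> simp
    cases Nat.beq (Nat.mod (Nat.shiftRight D 4) 4) 2 <;> simp
  have hn : cn D ≤ 15 := by
    have : cn D < 16 := Nat.mod_lt _ (by norm_num)
    omega
  obtain ⟨g, h1, h2, h3⟩ := certSum_spec hS (cw D) hw (cn D) (Nat.shiftRight D 6)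
  refine ⟨fun i => if i < 10 then g i else 0, ?_, ?_⟩
  · intro i hi
    have e : cT S D = ∑ j ∈ Finset.range 10, (if j < 10 then g j else 0) * (2 ^ 42) ^ j := by
      show certSum (cw D) S (cn D) (Nat.shiftRight D 6) = _
      rw [h1]
      refine Finset.sum_congr rfl fun j hj => ?_
      rw [if_pos (Finset.mem_range.1 hj)]
    rw [e]
    refine fld_sum _ (fun j => ?_) i hi
    by_cases hj : j < 10
    · simp only [hj, if_true]
      have := h2 j hj
      have h4 : cn D * (2 ^ 24 * 8192) ≤ 15 * (2 ^ 24 * 8192) := Nat.mul_le_mul_right _ hn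
      calc g j ≤ 15 * (2 ^ 24 * 8192) := le_trans this h4
        _ < 2 ^ 42 := by norm_num
    · simp only [hj, if_false]; norm_num
  · unfold HoldsG linG at *
    simpa using h3

theorem cert_sound {v : ℝ} {S D D' : ℕ} (h : cert S D = some D') {x : Pt} (hx : Glob v x)
    (hS : Good S x) : False := by
  obtain ⟨g, hg1, hg2⟩ := fields_of_sum hS D
  unfold cert at h
  have hok : okT (cT S D) = true := by
    cases hb : okT (cT S D) with
    | true => rfl
    | false => rw [hb] at h; simp at h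
  unfold okT at hok
  rw [hg1 0 (by norm_num), hg1 1 (by norm_num), hg1 2 (by norm_num), hg1 3 (by norm_num),
    hg1 4 (by norm_num), hg1 5 (by norm_num), hg1 6 (by norm_num), hg1 7 (by norm_num),
    hg1 8 (by norm_num), hg1 9 (by norm_num)] at hok
  cases e1 : Nat.beq (g 1) (g 9) <;> rw [e1] at hok <;> simp only [cond_false, cond_true] at hok
  · exact absurd hok (by simp)
  cases e3 : Nat.beq (g 3) (g 9) <;> rw [e3] at hok <;> simp only [cond_false, cond_true] at hok
  · exact absurd hok (by simp)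
  cases e4 : Nat.beq (g 4) (g 9) <;> rw [e4] at hok <;> simp only [cond_false, cond_true] at hok
  · exact absurd hok (by simp)
  cases e0 : Nat.ble (g 9) (g 0) <;> rw [e0] at hok <;> simp only [cond_false, cond_true] at hok
  · exact absurd hok (by simp)
  cases e2 : Nat.ble (g 9) (g 2) <;> rw [e2] at hok <;> simp only [cond_false, cond_true] at hok
  · exact absurd hok (by simp)
  cases e5 : Nat.ble (g 9) (g 5) <;> rw [e5] at hok <;> simp only [cond_false, cond_true] at hok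
  · exact absurd hok (by simp)
  cases e6 : Nat.ble (g 6) (g 9) <;> rw [e6] at hok <;> simp only [cond_false, cond_true] at hok
  · exact absurd hok (by simp)
  refine leaf_contra hx hg2 (Nat.eq_of_beq_eq_true e1) (Nat.eq_of_beq_eq_true e3)
    (Nat.eq_of_beq_eq_true e4) (Nat.le_of_ble_eq_true e0) (Nat.le_of_ble_eq_true e2)
    (Nat.le_of_ble_eq_true e5) (Nat.le_of_ble_eq_true e6) ?_
  cases e7 : Nat.blt (g 7) (g 6) <;> rw [e7] at hok <;> simp only [cond_false, cond_true] at hok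
  swap
  · left; exact Nat.le_of_ble_eq_true e7
  cases e8 : quart (Nat.sub (g 7) (g 6)) (Nat.sub (g 9) (g 6)) (Nat.sub (g 0) (g 9))
      (Nat.sub (g 2) (g 9)) (Nat.sub (g 5) (g 9)) <;> rw [e8] at hok <;>
    simp only [cond_false, cond_true] at hok
  swap
  · right; left
    unfold quart at e8
    have := Nat.le_of_ble_eq_true e8
    have h2 : 125 * ((g 7 - g 6) * (g 7 - g 6) * ((g 7 - g 6) * (g 7 - g 6))) <
      251 * ((g 9 - g 6) * (g 0 - g 9) * ((g 2 - g 9) * (g 5 - g 9))) := this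
    calc 125 * ((g 7 - g 6) ^ 4) = 125 * ((g 7 - g 6) * (g 7 - g 6) * ((g 7 - g 6) * (g 7 - g 6))) := by ring
      _ < _ := h2
  right; right
  cases e9 : Nat.beq (g 7) (g 6) <;> rw [e9] at hok <;> simp only [cond_false, cond_true] at hok
  · exact absurd hok (by simp)
  exact ⟨Nat.eq_of_beq_eq_true e9, Nat.le_of_ble_eq_true hok⟩

lemma okE_spec {S D r q : ℕ} (h : okE r q (cT S D) = true) {x : Pt} (hS : Good S x) :
    x.al + r * x.rho + 6 * x.om ≤ q * x.mu := by
  obtain ⟨g, hg1, hg2⟩ := fields_of_sum hS D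
  unfold okE at h
  rw [hg1 0 (by norm_num), hg1 1 (by norm_num), hg1 2 (by norm_num), hg1 3 (by norm_num),
    hg1 4 (by norm_num), hg1 5 (by norm_num), hg1 6 (by norm_num), hg1 7 (by norm_num),
    hg1 9 (by norm_num)] at h
  cases e1 : Nat.beq (g 1) (g 9) <;> rw [e1] at h <;> simp only [cond_false, cond_true] at h
  · exact absurd h (by simp)
  cases e3 : Nat.beq (g 3) (g 9) <;> rw [e3] at h <;> simp only [cond_false, cond_true] at h
  · exact absurd h (by simp)
  cases e4 : Nat.beq (g 4) (g 9) <;> rw [e4] at h <;> simp only [cond_false, cond_true] at h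
  · exact absurd h (by simp)
  cases e0 : Nat.blt (g 9) (g 0) <;> rw [e0] at h <;> simp only [cond_false, cond_true] at h
  · exact absurd h (by simp)
  cases e2 : Nat.beq (g 2) (Nat.add (g 9) (Nat.mul r (Nat.sub (g 0) (g 9)))) <;> rw [e2] at h <;>
    simp only [cond_false, cond_true] at h
  · exact absurd h (by simp)
  cases e5 : Nat.beq (g 5) (Nat.add (g 9) (Nat.mul 6 (Nat.sub (g 0) (g 9)))) <;> rw [e5] at h <;>
    simp only [cond_false, cond_true] at h
  · exact absurd h (by simp)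
  cases e6 : Nat.beq (Nat.add (g 6) (Nat.mul q (Nat.sub (g 0) (g 9)))) (g 9) <;> rw [e6] at h <;>
    simp only [cond_false, cond_true] at h
  · exact absurd h (by simp)
  have f1 := Nat.eq_of_beq_eq_true e1
  have f3 := Nat.eq_of_beq_eq_true e3
  have f4 := Nat.eq_of_beq_eq_true e4
  have f0 : g 9 < g 0 := Nat.le_of_ble_eq_true e0
  have f2 : g 2 = g 9 + r * (g 0 - g 9) := Nat.eq_of_beq_eq_true e2
  have f5 : g 5 = g 9 + 6 * (g 0 - g 9) := Nat.eq_of_beq_eq_true e5
  have f6 : g 6 + q * (g 0 - g 9) = g 9 := Nat.eq_of_beq_eq_true e6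
  have f7 : g 7 ≤ g 9 := Nat.le_of_ble_eq_true h
  set m : ℝ := (g 0 : ℝ) - g 9 with hm
  have hm0 : 0 < m := by rw [hm, sub_pos]; exact_mod_cast f0
  have r2 : (g 2 : ℝ) = g 9 + r * m := by
    rw [f2]; push_cast [Nat.cast_sub f0.le]; rw [hm]
  have r5 : (g 5 : ℝ) = g 9 + 6 * m := by
    rw [f5]; push_cast [Nat.cast_sub f0.le]; rw [hm]
  have r6 : (g 6 : ℝ) + q * m = g 9 := by
    have : ((g 6 + q * (g 0 - g 9) : ℕ) : ℝ) = (g 9 : ℝ) := by exact_mod_cast f6
    push_cast [Nat.cast_sub f0.le] at this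
    rw [hm]; exact this
  have r7 : (g 7 : ℝ) ≤ g 9 := by exact_mod_cast f7
  have hl := hg2.1
  unfold linG at hl
  rw [f1, f3, f4, r2, r5] at hl
  have r6' : (g 6 : ℝ) - g 9 = - (q * m) := by linarith
  rw [r6', ← hm] at hl
  have : m * (x.al + r * x.rho + 6 * x.om - q * x.mu) ≤ 0 := by nlinarith
  have h2 : x.al + r * x.rho + 6 * x.om - q * x.mu ≤ 0 := by
    by_contra hc
    push Not at hc
    have := mul_pos hm0 hc
    linarith
  linarith

theorem exact2_sound {v : ℝ} {S D D' : ℕ} (h : exact2 S D = some D') {x : Pt} (hx : Glob v x)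
    (hS : Good S x) : False := by
  unfold exact2 at h
  cases e1 : okE 5 4 (cT S D) <;> rw [e1] at h <;> simp only [cond_false, cond_true] at h
  · exact absurd h (by simp)
  cases e2 : okE 2 3 (cT S (cR D)) <;> rw [e2] at h <;> simp only [cond_false, cond_true] at h
  · exact absurd h (by simp)
  have h1 := okE_spec e1 hS
  have h2 := okE_spec e2 hS
  have hP0 := cst_big hx.hv
  have hmu : x.mu < 1 := by
    by_contra hc
    push Not at hc
    have h1 : (1 - x.mu) * x.al * x.rho * x.om ≤ 0 := by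
      have := mul_pos (mul_pos hx.hal hx.hrho) hx.hom
      nlinarith
    linarith [hx.hP]
  have := exact_bound hx.hv hx.hal hx.hrho hx.hom hmu hx.hsum (by exact_mod_cast h1)
    (by exact_mod_cast h2)
  exact absurd hx.hP (not_lt.2 this)

end Pool.Agent.helper93.PS
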