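import Mathlib
import Pool.Agent.helper93.PS.Leaf

/-!
# MP_da66b4_nt Q2: test points
-/

namespace Pool.Agent.helper93.PS

lemma abs_int_le {N : ℕ} {j : ℤ} {a C : ℝ} (ha : 0 < a) (hN : C / a ≤ N) (h : |(j : ℝ)| * a ≤ C) :
    |j| ≤ (N : ℤ) := by
  have h1 : |(j : ℝ)| ≤ C / a := by rw [le_div_iff₀ ha]; exact h
  have h2 : |(j : ℝ)| ≤ (N : ℝ) := le_trans h1 hN
  have : ((|j| : ℤ) : ℝ) ≤ ((N : ℤ) : ℝ) := by push_cast; exact h2
  exact_mod_cast this

theorem strict_cover {al s rho t u om mu : ℝ} (hal : 0 < al) (hrho : 0 < rho) (hom : 0 < om)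
    (hcov : _root_.PS.Covers al s rho t u om mu) (x0 y0 : ℝ) :
    ∃ k : ℕ, ∃ j i : ℤ, 0 < y0 - j * rho + k * u ∧ 0 < x0 - i * al - j * s + k * t ∧
      x0 - i * al - j * s + k * t ≤ al ∧
      (k + 1) * om + (y0 - j * rho + k * u) + (x0 - i * al - j * s + k * t) ≤ mu := by
  have key : ∀ n : ℕ, ∃ p : ℤ × ℤ × ℤ,
      0 ≤ (x0 - om / (n + 2)) - (p.1 * al + p.2.1 * s + p.2.2 * t) ∧
      0 ≤ (y0 - om / (n + 2)) - (p.2.1 * rho + p.2.2 * u) ∧
      0 ≤ (om - om / (n + 2)) - p.2.2 * om ∧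
      ((x0 - om / (n + 2)) - (p.1 * al + p.2.1 * s + p.2.2 * t)) +
        ((y0 - om / (n + 2)) - (p.2.1 * rho + p.2.2 * u)) + ((om - om / (n + 2)) - p.2.2 * om) ≤ mu := by
    intro n
    obtain ⟨i, j, k, h1, h2, h3, h4⟩ := hcov (x0 - om / (n + 2)) (y0 - om / (n + 2)) (om - om / (n + 2))
    exact ⟨(i, j, k), h1, h2, h3, h4⟩
  choose f hf using key
  have heps : ∀ n : ℕ, 0 < om / ((n : ℝ) + 2) := fun n => by positivity
  have heps1 : ∀ n : ℕ, om / ((n : ℝ) + 2) ≤ om := fun n => by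
    rw [div_le_iff₀ (by positivity)]
    nlinarith [(Nat.cast_nonneg n : (0 : ℝ) ≤ n)]
  -- bounds
  obtain ⟨N1, hN1⟩ := exists_nat_ge (|mu| / om)
  obtain ⟨N2, hN2⟩ := exists_nat_ge ((|y0| + om + |mu| + N1 * |u|) / rho)
  obtain ⟨N3, hN3⟩ := exists_nat_ge ((|x0| + om + |mu| + N2 * |s| + N1 * |t|) / al)
  have hk0 : ∀ n, (f n).2.2 ≤ 0 := by
    intro n
    have h3 := (hf n).2.2.1
    have h5 := heps n
    by_contra hc
    push Not at hc
    have : (1 : ℝ) ≤ ((f n).2.2 : ℝ) := by exact_mod_cast hc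
    nlinarith
  have hk : ∀ n, |(f n).2.2| ≤ (N1 : ℤ) := by
    intro n
    obtain ⟨h1, h2, h3, h4⟩ := hf n
    refine abs_int_le hom hN1 ?_
    have hneg : ((f n).2.2 : ℝ) ≤ 0 := by exact_mod_cast hk0 n
    rw [abs_of_nonpos hneg]
    have := le_abs_self mu
    have := heps1 n
    linarith
  have hkr : ∀ n, |((f n).2.2 : ℝ)| ≤ N1 := by
    intro n
    have := hk n
    have h' : ((|(f n).2.2| : ℤ) : ℝ) ≤ ((N1 : ℤ) : ℝ) := by exact_mod_cast this
    push_cast at h'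
    exact h'
  have hj : ∀ n, |(f n).2.1| ≤ (N2 : ℤ) := by
    intro n
    obtain ⟨h1, h2, h3, h4⟩ := hf n
    refine abs_int_le hrho hN2 ?_
    have e1 : |((f n).2.1 : ℝ)| * rho = |((f n).2.1 : ℝ) * rho| := by
      rw [abs_mul, abs_of_pos hrho]
    rw [e1, abs_le]
    have a1 := abs_le.1 (le_refl |y0|)
    have a2 := abs_le.1 (le_refl |mu|)
    have a3 : |((f n).2.2 : ℝ) * u| ≤ N1 * |u| := by
      rw [abs_mul]; exact mul_le_mul_of_nonneg_right (hkr n) (abs_nonneg u)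
    have a4 := abs_le.1 a3
    have := heps n
    have := heps1 n
    constructor <;> linarith [a1.1, a1.2, a2.1, a2.2, a4.1, a4.2]
  have hjr : ∀ n, |((f n).2.1 : ℝ)| ≤ N2 := by
    intro n
    have := hj n
    have h' : ((|(f n).2.1| : ℤ) : ℝ) ≤ ((N2 : ℤ) : ℝ) := by exact_mod_cast this
    push_cast at h'
    exact h'
  have hi : ∀ n, |(f n).1| ≤ (N3 : ℤ) := by
    intro n
    obtain ⟨h1, h2, h3, h4⟩ := hf n
    refine abs_int_le hal hN3 ?_
    have e1 : |((f n).1 : ℝ)| * al = |((f n).1 : ℝ) * al| := by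
      rw [abs_mul, abs_of_pos hal]
    rw [e1, abs_le]
    have a1 := abs_le.1 (le_refl |x0|)
    have a2 := abs_le.1 (le_refl |mu|)
    have a3 : |((f n).2.2 : ℝ) * t| ≤ N1 * |t| := by
      rw [abs_mul]; exact mul_le_mul_of_nonneg_right (hkr n) (abs_nonneg t)
    have a4 := abs_le.1 a3
    have a5 : |((f n).2.1 : ℝ) * s| ≤ N2 * |s| := by
      rw [abs_mul]; exact mul_le_mul_of_nonneg_right (hjr n) (abs_nonneg s)
    have a6 := abs_le.1 a5
    have := heps n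
    have := heps1 n
    constructor <;> linarith [a1.1, a1.2, a2.1, a2.2, a4.1, a4.2, a6.1, a6.2]
  -- pigeonhole
  let T := (Set.Icc (-(N3 : ℤ)) N3) × (Set.Icc (-(N2 : ℤ)) N2) × (Set.Icc (-(N1 : ℤ)) N1)
  let F : ℕ → T := fun n => (⟨(f n).1, abs_le.1 (hi n)⟩, ⟨(f n).2.1, abs_le.1 (hj n)⟩,
    ⟨(f n).2.2, abs_le.1 (hk n)⟩)
  obtain ⟨⟨⟨i, hi'⟩, ⟨j, hj'⟩, ⟨k, hk'⟩⟩, hinf⟩ := Finite.exists_infinite_fiber F
  have hfib : ∀ M : ℕ, ∃ n, M ≤ n ∧ f n = (i, j, k) := by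
    intro M
    have hs : (F ⁻¹' {(⟨i, hi'⟩, ⟨j, hj'⟩, ⟨k, hk'⟩)}).Infinite := Set.infinite_coe_iff.1 hinf
    obtain ⟨n, hn, hMn⟩ := hs.exists_gt M
    refine ⟨n, hMn.le, ?_⟩
    have : F n = (⟨i, hi'⟩, ⟨j, hj'⟩, ⟨k, hk'⟩) := hn
    have e1 : (f n).1 = i := congrArg (fun q : T => (q.1 : ℤ)) this
    have e2 : (f n).2.1 = j := congrArg (fun q : T => (q.2.1 : ℤ)) this
    have e3 : (f n).2.2 = k := congrArg (fun q : T => (q.2.2 : ℤ)) this
    exact Prod.ext e1 (Prod.ext e2 e3)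
  obtain ⟨n0, -, hn0⟩ := hfib 0
  have g1 := hf n0
  rw [hn0] at g1
  simp only at g1
  have hY : 0 < y0 - j * rho - k * u := by linarith [g1.2.1, heps n0]
  have hX : 0 < x0 - i * al - j * s - k * t := by linarith [g1.1, heps n0]
  have hC : (om - k * om) + (y0 - j * rho - k * u) + (x0 - i * al - j * s - k * t) ≤ mu := by
    refine le_of_forall_pos_le_add fun δ hδ => ?_
    obtain ⟨M, hM⟩ := exists_nat_gt (3 * om / δ)
    obtain ⟨n, hn, hfn⟩ := hfib M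
    have g2 := (hf n).2.2.2
    rw [hfn] at g2
    simp only at g2
    have h5 : 3 * (om / ((n : ℝ) + 2)) ≤ δ := by
      rw [← mul_div_assoc, div_le_iff₀ (by positivity)]
      have h6 : 3 * om < M * δ := by rwa [div_lt_iff₀ hδ] at hM
      have h7 : (M : ℝ) ≤ n := by exact_mod_cast hn
      nlinarith
    linarith
  have hk0' : k ≤ 0 := by
    have := hk0 n0
    rw [hn0] at this
    exact this
  have hkc : (((-k).toNat : ℕ) : ℝ) = - (k : ℝ) := by
    have h1 : (((-k).toNat : ℤ)) = -k := Int.toNat_of_nonneg (by omega)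
    have : ((((-k).toNat : ℕ) : ℤ) : ℝ) = ((-k : ℤ) : ℝ) := by rw [h1]
    push_cast at this
    exact this
  -- normalise i
  set X : ℝ := x0 - i * al - j * s - k * t with hXdef
  set m : ℤ := ⌈X / al⌉ - 1 with hm
  have m1 : X / al ≤ (m : ℝ) + 1 := by
    have := Int.le_ceil (X / al)
    rw [hm]; push_cast; linarith
  have m2 : (m : ℝ) < X / al := by
    have := Int.ceil_lt_add_one (X / al)
    rw [hm]; push_cast; linarith
  have m0 : (0 : ℝ) ≤ m := by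
    have : 0 < X / al := div_pos hX hal
    have h1 : (1 : ℤ) ≤ ⌈X / al⌉ := Int.one_le_ceil_iff.2 this
    have : (0 : ℤ) ≤ m := by omega
    exact_mod_cast this
  have m1' : X ≤ (m + 1) * al := by rwa [div_le_iff₀ hal] at m1
  have m2' : m * al < X := by rwa [lt_div_iff₀ hal] at m2
  have m3 : 0 ≤ m * al := mul_nonneg m0 hal.le
  refine ⟨(-k).toNat, j, i + m, ?_, ?_, ?_, ?_⟩
  · rw [hkc]; linarith
  · rw [hkc]; push_cast; rw [hXdef] at m2'; linarith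
  · rw [hkc]; push_cast; rw [hXdef] at m1'; linarith
  · rw [hkc]; push_cast; rw [hXdef] at hC; linarith

end Pool.Agent.helper93.PS
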