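import Mathlib
import Pool.Agent.helper93.PS.Cover

/-!
# MP_da66b4_nt Q2: soundness of the tree checker
-/

namespace Pool.Agent.helper93.PS

/-- the stack `S` is contradictory for all points above the constant -/
def Closed (S : ℕ) : Prop := ∀ (v : ℝ) (x : Pt), Glob v x → Good S x → False

/-- soundness of a node checker -/
def IhOK (ih : ℕ → ℕ → Option ℕ) : Prop := ∀ S D D', ih S D = some D' → Closed S

lemma andThen_some {o : Option ℕ} {f : ℕ → Option ℕ} {r : ℕ} (h : andThen o f = some r) :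
    ∃ D, o = some D ∧ f D = some r := by
  cases o with
  | none => simp [andThen] at h
  | some D => exact ⟨D, rfl, h⟩

section rows

variable {x : Pt} {ky jx kx k j i : ℕ}

lemma cast_sub_le {a b : ℕ} (h : b ≤ a) : ((a - b : ℕ) : ℝ) = (a : ℝ) - b := Nat.cast_sub h

lemma rK_ok (hk : k < 64) (h : ((k : ℝ) + 1) * x.om < x.mu) : RowOK (rK k) x := by
  unfold rK
  simp only [Nat.add_eq]
  refine rowOK_mkRow ?_ ?_ ?_ ?_ ?_ ?_ ?_ ?_ ?_ ⟨?_, ?_⟩ <;> try omega
  · simp only [linG, dig]; push_cast; linarith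
  · intro _; simp only [linG, dig]; push_cast; linarith

/-- the real value of `Y` -/
def Yv (x : Pt) (ky k j : ℕ) : ℝ := ((k : ℝ) - ky) * x.u - ((j : ℝ) - 32) * x.rho

/-- the real value of `X` -/
def Xv (x : Pt) (jx kx k j i : ℕ) : ℝ :=
  (((jx : ℝ) - 8) - ((j : ℝ) - 32)) * x.s + ((k : ℝ) - kx) * x.t - ((i : ℝ) - 32) * x.al

lemma rY_ok (hk : k < 64) (hky : ky < 8) (hj : j < 64) (h : 0 < Yv x ky k j) : RowOK (rY ky k j) x := by
  unfold rY
  simp only [Nat.add_eq, Nat.sub_eq]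
  have h1 : ((4096 + ky - k : ℕ) : ℝ) = 4096 + ky - k := by
    rw [Nat.cast_sub (by omega)]; push_cast; ring
  unfold Yv at h
  refine rowOK_mkRow ?_ ?_ ?_ ?_ ?_ ?_ ?_ ?_ ?_ ⟨?_, ?_⟩ <;> try omega
  · simp only [linG, dig, h1]; push_cast; linarith
  · intro _; simp only [linG, dig, h1]; push_cast; linarith

lemma rKY_ok (hk : k < 64) (hky : ky < 8) (hj : j < 64)
    (h : ((k : ℝ) + 1) * x.om + Yv x ky k j < x.mu) : RowOK (rKY ky k j) x := by
  unfold rKY
  simp only [Nat.add_eq, Nat.sub_eq]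
  have h1 : ((4096 + k - ky : ℕ) : ℝ) = 4096 + k - ky := by
    rw [Nat.cast_sub (by omega)]; push_cast; ring
  have h2 : ((4128 - j : ℕ) : ℝ) = 4128 - j := by
    rw [Nat.cast_sub (by omega)]; push_cast; ring
  unfold Yv at h
  refine rowOK_mkRow ?_ ?_ ?_ ?_ ?_ ?_ ?_ ?_ ?_ ⟨?_, ?_⟩ <;> try omega
  · simp only [linG, dig, h1, h2]; push_cast; linarith
  · intro _; simp only [linG, dig, h1, h2]; push_cast; linarith

lemma rX_ok (hk : k < 64) (hkx : kx < 8) (hjx : jx < 32) (hj : j < 64) (hi : i < 64)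
    (h : 0 < Xv x jx kx k j i) : RowOK (rX jx kx k j i) x := by
  unfold rX
  simp only [Nat.add_eq, Nat.sub_eq]
  have h1 : ((4072 + j - jx : ℕ) : ℝ) = 4072 + j - jx := by
    rw [Nat.cast_sub (by omega)]; push_cast; ring
  have h2 : ((4096 + kx - k : ℕ) : ℝ) = 4096 + kx - k := by
    rw [Nat.cast_sub (by omega)]; push_cast; ring
  unfold Xv at h
  refine rowOK_mkRow ?_ ?_ ?_ ?_ ?_ ?_ ?_ ?_ ?_ ⟨?_, ?_⟩ <;> try omega
  · simp only [linG, dig, h1, h2]; push_cast; linarith
  · intro _; simp only [linG, dig, h1, h2]; push_cast; linarith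

lemma rXa_ok (hk : k < 64) (hkx : kx < 8) (hjx : jx < 32) (hj : j < 64) (hi : i < 64)
    (h : Xv x jx kx k j i ≤ x.al) : RowOK (rXa jx kx k j i) x := by
  unfold rXa
  simp only [Nat.add_eq, Nat.sub_eq]
  have h1 : ((4120 + jx - j : ℕ) : ℝ) = 4120 + jx - j := by
    rw [Nat.cast_sub (by omega)]; push_cast; ring
  have h2 : ((4096 + k - kx : ℕ) : ℝ) = 4096 + k - kx := by
    rw [Nat.cast_sub (by omega)]; push_cast; ring
  have h3 : ((4127 - i : ℕ) : ℝ) = 4127 - i := by
    rw [Nat.cast_sub (by omega)]; push_cast; ring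
  unfold Xv at h
  refine rowOK_mkRow ?_ ?_ ?_ ?_ ?_ ?_ ?_ ?_ ?_ ⟨?_, ?_⟩ <;> try omega
  · simp only [linG, dig, h1, h2, h3]; push_cast; linarith
  · intro h'; exact absurd h' (lt_irrefl _)

lemma rC_ok (hk : k < 64) (hky : ky < 8) (hkx : kx < 8) (hjx : jx < 32) (hj : j < 64) (hi : i < 64)
    (h : ((k : ℝ) + 1) * x.om + Yv x ky k j + Xv x jx kx k j i ≤ x.mu) :
    RowOK (rC ky jx kx k j i) x := by
  unfold rC
  simp only [Nat.add_eq, Nat.sub_eq]
  have h1 : ((4120 + jx - j : ℕ) : ℝ) = 4120 + jx - j := by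
    rw [Nat.cast_sub (by omega)]; push_cast; ring
  have h2 : ((4096 + k - kx : ℕ) : ℝ) = 4096 + k - kx := by
    rw [Nat.cast_sub (by omega)]; push_cast; ring
  have h3 : ((4128 - i : ℕ) : ℝ) = 4128 - i := by
    rw [Nat.cast_sub (by omega)]; push_cast; ring
  have h4 : ((4128 - j : ℕ) : ℝ) = 4128 - j := by
    rw [Nat.cast_sub (by omega)]; push_cast; ring
  have h5 : ((4096 + k - ky : ℕ) : ℝ) = 4096 + k - ky := by
    rw [Nat.cast_sub (by omega)]; push_cast; ring
  unfold Xv Yv at h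
  refine rowOK_mkRow ?_ ?_ ?_ ?_ ?_ ?_ ?_ ?_ ?_ ⟨?_, ?_⟩ <;> try omega
  · simp only [linG, dig, h1, h2, h3, h4, h5]; push_cast; linarith
  · intro h'; exact absurd h' (lt_irrefl _)

end rows

/-- the real value of `Y` for an integer `j` -/
def Yz (x : Pt) (ky k : ℕ) (j : ℤ) : ℝ := ((k : ℝ) - ky) * x.u - (j : ℝ) * x.rho

/-- the real value of `X` for integers `j`, `i` -/
def Xz (x : Pt) (jx kx k : ℕ) (j i : ℤ) : ℝ :=
  (((jx : ℝ) - 8) - (j : ℝ)) * x.s + ((k : ℝ) - kx) * x.t - (i : ℝ) * x.al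

/-- the covering vector `(k, j, i)` of the test point -/
structure Vec (x : Pt) (ky jx kx k : ℕ) (j i : ℤ) : Prop where
  hY : 0 < Yz x ky k j
  hX : 0 < Xz x jx kx k j i
  hXa : Xz x jx kx k j i ≤ x.al
  hC : ((k : ℝ) + 1) * x.om + Yz x ky k j + Xz x jx kx k j i ≤ x.mu

lemma Yv_eq {x : Pt} {ky k m : ℕ} : Yv x ky k m = Yz x ky k ((m : ℤ) - 32) := by
  unfold Yv Yz; push_cast; ring

lemma Xv_eq {x : Pt} {jx kx k m n : ℕ} : Xv x jx kx k m n = Xz x jx kx k ((m : ℤ) - 32) ((n : ℤ) - 32) := by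
  unfold Xv Xz; push_cast; ring

lemma Yz_anti {x : Pt} (h : 0 < x.rho) {ky k : ℕ} {j j' : ℤ} (hj : j ≤ j') :
    Yz x ky k j' ≤ Yz x ky k j := by
  unfold Yz
  have : (j : ℝ) ≤ j' := by exact_mod_cast hj
  nlinarith

lemma Xz_anti {x : Pt} (h : 0 < x.al) {jx kx k : ℕ} {j i i' : ℤ} (hi : i ≤ i') :
    Xz x jx kx k j i' ≤ Xz x jx kx k j i := by
  unfold Xz
  have : (i : ℝ) ≤ i' := by exact_mod_cast hi
  nlinarith

/-- indices are small -/
structure Idx (ky jx kx k : ℕ) : Prop where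
  h1 : ky < 8
  h2 : jx < 32
  h3 : kx < 8
  h4 : k < 64

variable {v : ℝ} {x : Pt} {ih : ℕ → ℕ → Option ℕ}

lemma loopI_sound (hih : IhOK ih) {S SC ky jx kx k j : ℕ} (hx : Glob v x) (hI : Idx ky jx kx k)
    (hj : j < 64) (hS : Good S x) (hSC : Good SC x) : ∀ m D D' : ℕ, m ≤ 64 →
    loopI ih S SC ky jx kx k j m D = some D' → ∀ i : ℤ, i < (m : ℤ) - 32 →
    Vec x ky jx kx k ((j : ℤ) - 32) i → False := by
  intro m
  induction m with
  | zero => intro D D' _ h; simp [loopI] at h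
  | succ m ihm =>
    intro D D' hm h i hi hv
    unfold loopI at h
    cases hb : Nat.beq (Nat.mod D 2) 0 <;> rw [hb] at h <;> simp only [cond_false, cond_true] at h
    · obtain ⟨D1, h1, h2⟩ := andThen_some h
      rcases eq_or_lt_of_le (by push_cast at hi; omega : i ≤ (m : ℤ) - 32) with he | hlt
      · refine hih _ _ _ h1 v x hx ?_
        unfold push4
        have e1 : Yv x ky k j = Yz x ky k ((j : ℤ) - 32) := Yv_eq
        have e2 : Xv x jx kx k j m = Xz x jx kx k ((j : ℤ) - 32) i := by rw [Xv_eq, he]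
        refine good_push (good_push (good_push (good_push hS ?_) ?_) ?_) ?_
        · exact rY_ok hI.h4 hI.h1 hj (by rw [e1]; exact hv.hY)
        · exact rX_ok hI.h4 hI.h3 hI.h2 hj (by omega) (by rw [e2]; exact hv.hX)
        · exact rXa_ok hI.h4 hI.h3 hI.h2 hj (by omega) (by rw [e2]; exact hv.hXa)
        · exact rC_ok hI.h4 hI.h1 hI.h3 hI.h2 hj (by omega) (by rw [e1, e2]; exact hv.hC)
      · exact ihm D1 D' (by omega) h2 i hlt hv
    · have e1 : Yv x ky k j = Yz x ky k ((j : ℤ) - 32) := Yv_eq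
      have e2 : Xv x jx kx k j m ≤ Xz x jx kx k ((j : ℤ) - 32) i := by
        rw [Xv_eq]; exact Xz_anti hx.hal (by push_cast at hi; omega)
      refine cert_sound h hx (good_push (good_push hSC ?_) ?_)
      · exact rXa_ok hI.h4 hI.h3 hI.h2 hj (by omega) (le_trans e2 hv.hXa)
      · refine rC_ok hI.h4 hI.h1 hI.h3 hI.h2 hj (by omega) ?_
        rw [e1]; linarith [hv.hC]

lemma phC_sound (hih : IhOK ih) {S SC ky jx kx k j D D' : ℕ} (hx : Glob v x) (hI : Idx ky jx kx k)
    (hj : j < 64) (hS : Good S x) (hSC : Good SC x) (h : phC ih S SC ky jx kx k j D = some D')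
    (i : ℤ) (hv : Vec x ky jx kx k ((j : ℤ) - 32) i) : False := by
  unfold phC at h
  cases hb : Nat.beq (Nat.mod D 2) 0 <;> rw [hb] at h <;> simp only [cond_false, cond_true] at h
  · obtain ⟨D1, h1, h2⟩ := andThen_some h
    have hm : Nat.mod (Nat.shiftRight D 1) 64 < 64 := Nat.mod_lt _ (by norm_num)
    set m := Nat.mod (Nat.shiftRight D 1) 64 with hmdef
    rcases le_or_gt ((m : ℤ) - 32) i with hle | hlt
    · refine cert_sound h1 hx (good_push hSC ?_)
      refine rX_ok hI.h4 hI.h3 hI.h2 hj hm ?_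
      rw [Xv_eq]
      exact lt_of_lt_of_le hv.hX (Xz_anti hx.hal hle)
    · exact loopI_sound hih hx hI hj hS hSC m D1 D' hm.le h2 i hlt hv
  · exact cert_sound h hx hSC

lemma loopJ_sound (hih : IhOK ih) {S SB ky jx kx k : ℕ} (hx : Glob v x) (hI : Idx ky jx kx k)
    (hS : Good S x) (hSB : Good SB x) : ∀ m D D' : ℕ, m ≤ 64 →
    loopJ ih S SB ky jx kx k m D = some D' → ∀ j i : ℤ, j < (m : ℤ) - 32 →
    Vec x ky jx kx k j i → False := by
  intro m
  induction m with
  | zero => intro D D' _ h; simp [loopJ] at h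
  | succ m ihm =>
    intro D D' hm h j i hj hv
    unfold loopJ at h
    cases hb : Nat.beq (Nat.mod D 2) 0 <;> rw [hb] at h <;> simp only [cond_false, cond_true] at h
    · obtain ⟨D1, h1, h2⟩ := andThen_some h
      rcases eq_or_lt_of_le (by push_cast at hj; omega : j ≤ (m : ℤ) - 32) with he | hlt
      · subst he
        have e1 : Yv x ky k m = Yz x ky k ((m : ℤ) - 32) := Yv_eq
        refine phC_sound hih hx hI (by omega) hS (good_push (good_push hSB ?_) ?_) h1 i hv
        · exact rY_ok hI.h4 hI.h1 (by omega) (by rw [e1]; exact hv.hY)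
        · refine rKY_ok hI.h4 hI.h1 (by omega) ?_
          rw [e1]; linarith [hv.hC, hv.hX]
      · exact ihm D1 D' (by omega) h2 j i hlt hv
    · refine cert_sound h hx (good_push hSB ?_)
      refine rKY_ok hI.h4 hI.h1 (by omega) ?_
      have e1 : Yv x ky k m ≤ Yz x ky k j := by
        rw [Yv_eq]; exact Yz_anti hx.hrho (by push_cast at hj; omega)
      linarith [hv.hC, hv.hX]

lemma phB_sound (hih : IhOK ih) {S SB ky jx kx k D D' : ℕ} (hx : Glob v x) (hI : Idx ky jx kx k)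
    (hS : Good S x) (hSB : Good SB x) (h : phB ih S SB ky jx kx k D = some D')
    (j i : ℤ) (hv : Vec x ky jx kx k j i) : False := by
  unfold phB at h
  obtain ⟨D1, h1, h2⟩ := andThen_some h
  have hm : Nat.mod D 64 < 64 := Nat.mod_lt _ (by norm_num)
  set m := Nat.mod D 64 with hmdef
  rcases le_or_gt ((m : ℤ) - 32) j with hle | hlt
  · refine cert_sound h1 hx (good_push hSB ?_)
    refine rY_ok hI.h4 hI.h1 hm ?_
    rw [Yv_eq]
    exact lt_of_lt_of_le hv.hY (Yz_anti hx.hrho hle)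
  · exact loopJ_sound hih hx hI hS hSB m D1 D' hm.le h2 j i hlt hv

lemma loopK_sound (hih : IhOK ih) {S ky jx kx : ℕ} (hx : Glob v x) (hky : ky < 8) (hjx : jx < 32)
    (hkx : kx < 8) (hS : Good S x) : ∀ f k D D' : ℕ, k + f ≤ 64 →
    loopK ih S ky jx kx f k D = some D' → ∀ (k' : ℕ) (j i : ℤ), k ≤ k' →
    Vec x ky jx kx k' j i → False := by
  intro f
  induction f with
  | zero => intro k D D' _ h; simp [loopK] at h
  | succ f ihf =>
    intro k D D' hf h k' j i hk hv
    have hk64 : k < 64 := by omega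
    unfold loopK at h
    cases hb : Nat.beq (Nat.mod D 2) 0 <;> rw [hb] at h <;> simp only [cond_false, cond_true] at h
    · obtain ⟨D1, h1, h2⟩ := andThen_some h
      rcases eq_or_lt_of_le hk with he | hlt
      · subst he
        refine phB_sound hih hx ⟨hky, hjx, hkx, hk64⟩ hS (good_push hS ?_) h1 j i hv
        exact rK_ok hk64 (by linarith [hv.hC, hv.hX, hv.hY])
      · exact ihf (k + 1) D1 D' (by omega) h2 k' j i hlt hv
    · refine cert_sound h hx (good_push hS ?_)
      refine rK_ok hk64 ?_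
      have : (k : ℝ) ≤ k' := by exact_mod_cast hk
      have h1 : ((k : ℝ) + 1) * x.om ≤ ((k' : ℝ) + 1) * x.om := by nlinarith [hx.hom]
      linarith [hv.hC, hv.hX, hv.hY]

lemma test_sound (hih : IhOK ih) {S D D' : ℕ} (h : test ih S D = some D') : Closed S := by
  intro v x hx hS
  unfold test at h
  have h1 : Nat.mod D 8 < 8 := Nat.mod_lt _ (by norm_num)
  have h2 : Nat.mod (Nat.shiftRight D 3) 32 < 32 := Nat.mod_lt _ (by norm_num)
  have h3 : Nat.mod (Nat.shiftRight D 8) 8 < 8 := Nat.mod_lt _ (by norm_num)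
  set ky := Nat.mod D 8
  set jx := Nat.mod (Nat.shiftRight D 3) 32
  set kx := Nat.mod (Nat.shiftRight D 8) 8
  obtain ⟨k, j, i, hY, hX, hXa, hC⟩ := strict_cover hx.hal hx.hrho hx.hom hx.hcov
    (((jx : ℝ) - 8) * x.s - kx * x.t) (-(ky * x.u))
  have eY : -(ky * x.u) - j * x.rho + k * x.u = Yz x ky k j := by unfold Yz; ring
  have eX : (((jx : ℝ) - 8) * x.s - kx * x.t) - i * x.al - j * x.s + k * x.t = Xz x jx kx k j i := by
    unfold Xz; ring
  rw [eY] at hY hC
  rw [eX] at hX hXa hC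
  exact loopK_sound hih hx h1 h2 h3 hS 40 0 _ D' (by norm_num) h k j i (Nat.zero_le _)
    ⟨hY, hX, hXa, hC⟩

lemma getR_mem : ∀ (l : List ℕ) (n : ℕ), n < l.length → getR l n ∈ l := by
  intro l
  induction l with
  | nil => intro n h; simp at h
  | cons a t iht =>
    intro n h
    cases n with
    | zero => simp [getR]
    | succ n =>
      have : getR (a :: t) (n + 1) = getR t n := rfl
      rw [this]
      exact List.mem_cons_of_mem _ (iht n (by simpa using h))

theorem chk_sound {refs : List ℕ} (hr : ∀ S ∈ refs, Closed S) : ∀ f : ℕ, IhOK (chk refs f) := by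
  intro f
  induction f with
  | zero => intro S D D' h; simp [chk] at h
  | succ f ihf =>
    intro S D D' h
    unfold chk at h
    cases h0 : Nat.beq (Nat.mod D 4) 0 <;> rw [h0] at h <;> simp only [cond_false, cond_true] at h
    swap
    · intro v x hx hS; exact cert_sound h hx hS
    cases h1 : Nat.beq (Nat.mod D 4) 1 <;> rw [h1] at h <;> simp only [cond_false, cond_true] at h
    swap
    · exact test_sound ihf h
    cases h2 : Nat.beq (Nat.mod D 4) 2 <;> rw [h2] at h <;> simp only [cond_false, cond_true] at h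
    swap
    · intro v x hx hS; exact exact2_sound h hx hS
    cases h3 : Nat.beq S (getR refs (Nat.mod (Nat.shiftRight D 2) 64)) <;> rw [h3] at h <;>
      simp only [cond_false, cond_true] at h
    · simp at h
    cases h4 : Nat.blt (Nat.mod (Nat.shiftRight D 2) 64) refs.length <;> rw [h4] at h <;>
      simp only [cond_false, cond_true] at h
    · simp at h
    have e3 := Nat.eq_of_beq_eq_true h3
    have e4 : Nat.mod (Nat.shiftRight D 2) 64 < refs.length := Nat.le_of_ble_eq_true h4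
    rw [e3]
    exact hr _ (getR_mem refs _ e4)

theorem chk1_sound {refs : List ℕ} {S D : ℕ} (hr : ∀ S ∈ refs, Closed S)
    (h : chk1 refs S D = true) : Closed S := by
  unfold chk1 at h
  cases hc : chk refs 30 S D with
  | none => rw [hc] at h; simp at h
  | some D' => exact chk_sound hr 30 S D D' hc

lemma refs_nil : ∀ S ∈ ([] : List ℕ), Closed S := fun _ h => absurd h List.not_mem_nil

lemma refs_cons {a : ℕ} {l : List ℕ} (ha : Closed a) (hl : ∀ S ∈ l, Closed S) :
    ∀ S ∈ a :: l, Closed S := by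
  intro S hS
  rcases List.mem_cons.1 hS with h | h
  · rw [h]; exact ha
  · exact hl S h

end Pool.Agent.helper93.PS
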